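import Pool.Agent.VM5.Stmts
import Pool.Agent.Helper69_Weyl.Basic

/-!
BLK: blocks of length `u` for the quintic Weyl sum.
-/

set_option autoImplicit false

namespace Pool.Agent.VM5.H81

open Finset
open Pool.Agent.Helper69_Weyl

/-- the Weyl sum over natural numbers -/
theorem ws_nat (t ξ : ℝ) (N : ℕ) :
    WS t ξ N = ∑ n ∈ Icc 1 N, ee (t * (n : ℝ) ^ 5 + ξ * (n : ℝ)) := by
  unfold WS
  symm
  refine Finset.sum_bij (fun (n : ℕ) _ => (n : ℤ)) ?_ ?_ ?_ ?_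
  · intro n hn
    rw [Finset.mem_Icc] at hn ⊢
    constructor
    · exact_mod_cast hn.1
    · exact_mod_cast hn.2
  · intro a _ b _ h
    exact_mod_cast h
  · intro z hz
    rw [Finset.mem_Icc] at hz
    refine ⟨z.toNat, ?_, ?_⟩
    · rw [Finset.mem_Icc]
      omega
    · exact Int.toNat_of_nonneg (by omega)
  · intro n _
    push_cast
    rfl

/-- the sum over a block, shifted to the origin -/
theorem blk_shift (b : ℤ) (u B m : ℕ) (hu : 1 ≤ u) (ξ : ℝ) :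
    ∑ n ∈ Icc 1 m, ee ((b : ℝ) / (u : ℝ) * ((B * u + n : ℕ) : ℝ) ^ 5 + ξ * ((B * u + n : ℕ) : ℝ)) =
      ee (ξ * ((B * u : ℕ) : ℝ)) * WS ((b : ℝ) / (u : ℝ)) ξ m := by
  rw [ws_nat, Finset.mul_sum]
  refine Finset.sum_congr rfl fun n _ => ?_
  have hu0 : (u : ℝ) ≠ 0 := by
    have : (1 : ℝ) ≤ (u : ℝ) := by exact_mod_cast hu
    positivity
  have h1 : (b : ℝ) / (u : ℝ) * ((B * u + n : ℕ) : ℝ) ^ 5 + ξ * ((B * u + n : ℕ) : ℝ) =
      ξ * ((B * u : ℕ) : ℝ) + ((b : ℝ) / (u : ℝ) * (n : ℝ) ^ 5 + ξ * (n : ℝ)) +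
        ((b * ((B : ℤ) * ((B : ℤ) ^ 4 * (u : ℤ) ^ 4 + 5 * (B : ℤ) ^ 3 * (u : ℤ) ^ 3 * (n : ℤ) +
          10 * (B : ℤ) ^ 2 * (u : ℤ) ^ 2 * (n : ℤ) ^ 2 + 10 * (B : ℤ) * (u : ℤ) * (n : ℤ) ^ 3 +
          5 * (n : ℤ) ^ 4)) : ℤ) : ℝ) := by
    push_cast
    field_simp
    ring
  rw [h1, ee_add, ee_int, mul_one, ee_add]

/-- the bound for a block -/
theorem blk_one (N u : ℕ) (b : ℤ) (t ξ M : ℝ) (hu : 1 ≤ u)
    (ht : |t - (b : ℝ) / (u : ℝ)| ≤ 1 / ((u : ℝ) * (N : ℝ) ^ 4))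
    (hb : ∀ L : ℕ, L ≤ u → ‖WS ((b : ℝ) / (u : ℝ)) ξ L‖ ≤ M) (B L : ℕ) (hL : L ≤ u)
    (hN : B * u + L ≤ N) :
    ‖∑ n ∈ Icc 1 L, ee (t * ((B * u + n : ℕ) : ℝ) ^ 5 + ξ * ((B * u + n : ℕ) : ℝ))‖ ≤
      33 * M := by
  obtain ⟨β, hβ⟩ : ∃ β : ℝ, β = t - (b : ℝ) / (u : ℝ) := ⟨_, rfl⟩
  rw [← hβ] at ht
  have hu1 : (1 : ℝ) ≤ (u : ℝ) := by exact_mod_cast hu
  have e1 : ∀ n : ℕ, ee (t * ((B * u + n : ℕ) : ℝ) ^ 5 + ξ * ((B * u + n : ℕ) : ℝ)) =
      ee ((b : ℝ) / (u : ℝ) * ((B * u + n : ℕ) : ℝ) ^ 5 + ξ * ((B * u + n : ℕ) : ℝ)) *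
        ee (β * ((B * u + n : ℕ) : ℝ) ^ 5) := by
    intro n
    rw [← ee_add]
    congr 1
    rw [hβ]
    ring
  rw [Finset.sum_congr rfl fun n _ => e1 n, mul_comm (33 : ℝ) M]
  refine abel_bound _ _ L M 33 ?_ ?_
  · intro m hm
    rw [blk_shift b u B m hu ξ, norm_mul, norm_ee, one_mul]
    exact hb m (hm.trans hL)
  · rw [norm_ee]
    have h2 : ∀ m ∈ Ico 1 L, ‖ee (β * ((B * u + (m + 1) : ℕ) : ℝ) ^ 5) -
        ee (β * ((B * u + m : ℕ) : ℝ) ^ 5)‖ ≤ 32 / (u : ℝ) := by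
      intro m hm
      rw [Finset.mem_Ico] at hm
      have hN1 : 1 ≤ N := by omega
      have hN1' : (1 : ℝ) ≤ (N : ℝ) := by exact_mod_cast hN1
      refine (norm_ee_sub_le _ _).trans ?_
      obtain ⟨y, hy⟩ : ∃ y : ℝ, y = ((B * u + m : ℕ) : ℝ) := ⟨_, rfl⟩
      have hy0 : 0 ≤ y := by rw [hy]; positivity
      have hy1 : ((B * u + (m + 1) : ℕ) : ℝ) = y + 1 := by
        rw [hy]
        push_cast
        ring
      have hyN : y + 1 ≤ (N : ℝ) := by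
        rw [← hy1]
        have : B * u + (m + 1) ≤ N := by omega
        exact_mod_cast this
      rw [← hy, hy1]
      have h3 : β * (y + 1) ^ 5 - β * y ^ 5 = β * ((y + 1) ^ 5 - y ^ 5) := by ring
      rw [h3, abs_mul]
      have h4 : |(y + 1) ^ 5 - y ^ 5| ≤ 5 * (N : ℝ) ^ 4 := by
        have h5 : 0 ≤ (y + 1) ^ 5 - y ^ 5 := by
          have h6 : (y + 1) ^ 5 - y ^ 5 = 5 * y ^ 4 + 10 * y ^ 3 + 10 * y ^ 2 + 5 * y + 1 := by
            ring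
          rw [h6]
          positivity
        rw [abs_of_nonneg h5]
        have h7 : (y + 1) ^ 5 - y ^ 5 ≤ 5 * (y + 1) ^ 4 := by
          have h8 : 5 * (y + 1) ^ 4 - ((y + 1) ^ 5 - y ^ 5) =
              10 * y ^ 3 + 20 * y ^ 2 + 15 * y + 4 := by ring
          have h9 : 0 ≤ 10 * y ^ 3 + 20 * y ^ 2 + 15 * y + 4 := by positivity
          linarith
        have h10 : (y + 1) ^ 4 ≤ (N : ℝ) ^ 4 := pow_le_pow_left₀ (by linarith) hyN 4
        linarith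
      have h11 : |β| * |(y + 1) ^ 5 - y ^ 5| ≤ 1 / ((u : ℝ) * (N : ℝ) ^ 4) * (5 * (N : ℝ) ^ 4) :=
        mul_le_mul ht h4 (abs_nonneg _) (by positivity)
      have h12 : 1 / ((u : ℝ) * (N : ℝ) ^ 4) * (5 * (N : ℝ) ^ 4) = 5 / (u : ℝ) := by
        field_simp
      rw [h12] at h11
      have hpi : Real.pi < 3.15 := Real.pi_lt_d2
      have hpi0 := Real.pi_pos
      calc 2 * Real.pi * (|β| * |(y + 1) ^ 5 - y ^ 5|) ≤ 2 * Real.pi * (5 / (u : ℝ)) :=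
            mul_le_mul_of_nonneg_left h11 (by positivity)
        _ = (10 * Real.pi) / (u : ℝ) := by ring
        _ ≤ 32 / (u : ℝ) := by
            apply div_le_div_of_nonneg_right _ (by positivity)
            linarith
    have h13 := Finset.sum_le_sum h2
    rw [Finset.sum_const, nsmul_eq_mul, Nat.card_Ico] at h13
    have h14 : ((L - 1 : ℕ) : ℝ) * (32 / (u : ℝ)) ≤ 32 := by
      have h15 : ((L - 1 : ℕ) : ℝ) ≤ (u : ℝ) := by
        have : L - 1 ≤ u := by omega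
        exact_mod_cast this
      calc ((L - 1 : ℕ) : ℝ) * (32 / (u : ℝ)) ≤ (u : ℝ) * (32 / (u : ℝ)) :=
            mul_le_mul_of_nonneg_right h15 (by positivity)
        _ = 32 := by field_simp
    linarith

/-- the blocks one after another -/
theorem blk_all (N u : ℕ) (b : ℤ) (t ξ M : ℝ) (hu : 1 ≤ u)
    (ht : |t - (b : ℝ) / (u : ℝ)| ≤ 1 / ((u : ℝ) * (N : ℝ) ^ 4))
    (hb : ∀ L : ℕ, L ≤ u → ‖WS ((b : ℝ) / (u : ℝ)) ξ L‖ ≤ M) (B : ℕ) :
    ∀ L : ℕ, L ≤ u → B * u + L ≤ N → ‖WS t ξ (B * u + L)‖ ≤ ((B : ℝ) + 1) * (33 * M) := by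
  have hadd : ∀ m L : ℕ, WS t ξ (m + L) = WS t ξ m +
      ∑ n ∈ Icc 1 L, ee (t * ((m + n : ℕ) : ℝ) ^ 5 + ξ * ((m + n : ℕ) : ℝ)) := by
    intro m L
    rw [ws_nat, ws_nat]
    induction L with
    | zero => simp
    | succ L ih =>
      rw [← add_assoc m L 1, Finset.sum_Icc_succ_top (show 1 ≤ m + L + 1 by omega), ih,
        Finset.sum_Icc_succ_top (show 1 ≤ L + 1 by omega), add_assoc, ← add_assoc m L 1]
  induction B with
  | zero =>
    intro L hL hN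
    have h1 := blk_one N u b t ξ M hu ht hb 0 L hL hN
    have h2 := hadd (0 * u) L
    rw [h2]
    have h3 : WS t ξ (0 * u) = 0 := by
      rw [ws_nat]
      simp
    rw [h3, zero_add]
    refine h1.trans (le_of_eq ?_)
    push_cast
    ring
  | succ B ih =>
    intro L hL hN
    have h1 := blk_one N u b t ξ M hu ht hb (B + 1) L hL hN
    have h2 := hadd ((B + 1) * u) L
    have h3 := ih u le_rfl (by
      have : (B + 1) * u = B * u + u := by ring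
      omega)
    have h4 : (B + 1) * u = B * u + u := by ring
    rw [h2]
    refine (norm_add_le _ _).trans ?_
    have h5 : ‖WS t ξ ((B + 1) * u)‖ ≤ ((B : ℝ) + 1) * (33 * M) := by
      rw [h4]
      exact h3
    have h6 : (((B + 1 : ℕ) : ℝ) + 1) * (33 * M) = ((B : ℝ) + 1) * (33 * M) + 33 * M := by
      push_cast
      ring
    rw [h6]
    exact add_le_add h5 h1

theorem blk5 : Blk5Stmt := by
  refine ⟨66, by norm_num, ?_⟩
  intro N u b t ξ M hu huN hM ht hb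
  have h1 := blk_all N u b t ξ M hu ht hb (N / u) (N % u) (Nat.mod_lt _ (by omega)).le (by
    rw [Nat.div_add_mod' N u])
  rw [Nat.div_add_mod' N u] at h1
  refine h1.trans ?_
  have hu1 : (1 : ℝ) ≤ (u : ℝ) := by exact_mod_cast hu
  have h2 : ((N / u : ℕ) : ℝ) ≤ (N : ℝ) / (u : ℝ) := Nat.cast_div_le
  have h3 : (1 : ℝ) ≤ (N : ℝ) / (u : ℝ) := by
    rw [le_div_iff₀ (by positivity), one_mul]
    exact_mod_cast huN
  have h4 : (((N / u : ℕ) : ℝ) + 1) * (33 * M) ≤ (2 * ((N : ℝ) / (u : ℝ))) * (33 * M) :=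
    mul_le_mul_of_nonneg_right (by linarith) (by positivity)
  refine h4.trans (le_of_eq ?_)
  ring

end Pool.Agent.VM5.H81
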