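import Mathlib
import Pool.Agent.VM5.StmtsB
import Pool.Agent.Helper52_VM5.BCL

/-!
# The energy of a class and the sum over one class, for all `t` (modules ECw and BCw)

Copies of ECL and BCL (helper52) under `Par2w`.
-/

set_option autoImplicit false

namespace Pool.Agent.VM5.H81

open Pool.Agent.VM5
open Pool.Agent.VM5.H52 (lam_ge_one card_cls)
open Pool.Agent.Helper69_Weyl (ee)
open Pool.Agent.VM (Nr)

theorem ecw (eaw : EawStmt) (ebw : EbwStmt) : EcwStmt := by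
  intro ε hε
  obtain ⟨C1, hC1, h1⟩ := eaw ε hε
  obtain ⟨C2, hC2, h2⟩ := ebw ε hε
  refine ⟨C1 + C2, by positivity, fun N D K u H g t b S hP hg1 hgH hHN => ?_⟩
  have k1 := h1 N D K u H g t b S hP hg1 hgH hHN
  have k2 := h2 N D K u t b S hP
  have hsub : Cls N H g u S ⊆ P2 N S := Finset.filter_subset _ _
  have hfin1 : Finite {v : (ℕ × ℕ × ℤ) × (ℕ × ℕ × ℤ) // v.1 ∈ Cls N H g u S ∧
        v.2 ∈ Cls N H g u S ∧ Close2 K t v ∧ v.1.2.1 ≠ v.2.2.1} := by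
    apply Set.Finite.to_subtype
    apply ((Cls N H g u S ×ˢ Cls N H g u S).finite_toSet).subset
    intro v hv
    exact Finset.mem_coe.mpr (Finset.mem_product.mpr ⟨hv.1, hv.2.1⟩)
  have hfin2 : Finite {v : (ℕ × ℕ × ℤ) × (ℕ × ℕ × ℤ) // v.1 ∈ P2 N S ∧ v.2 ∈ P2 N S ∧
        Close2 K t v ∧ v.1.2.1 = v.2.2.1} := by
    apply Set.Finite.to_subtype
    apply ((P2 N S ×ˢ P2 N S).finite_toSet).subset
    intro v hv
    exact Finset.mem_coe.mpr (Finset.mem_product.mpr ⟨hv.1, hv.2.1⟩)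
  have hcard : Nat.card {v : (ℕ × ℕ × ℤ) × (ℕ × ℕ × ℤ) // v.1 ∈ Cls N H g u S ∧
        v.2 ∈ Cls N H g u S ∧ Close2 K t v} ≤
      Nat.card {v : (ℕ × ℕ × ℤ) × (ℕ × ℕ × ℤ) // v.1 ∈ Cls N H g u S ∧
        v.2 ∈ Cls N H g u S ∧ Close2 K t v ∧ v.1.2.1 ≠ v.2.2.1} +
      Nat.card {v : (ℕ × ℕ × ℤ) × (ℕ × ℕ × ℤ) // v.1 ∈ P2 N S ∧ v.2 ∈ P2 N S ∧
        Close2 K t v ∧ v.1.2.1 = v.2.2.1} := by
    rw [← Nat.card_sum]
    classical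
    apply Nat.card_le_card_of_injective (fun v =>
      if h : v.1.1.2.1 = v.1.2.2.1 then
        Sum.inr ⟨v.1, hsub v.2.1, hsub v.2.2.1, v.2.2.2, h⟩
      else Sum.inl ⟨v.1, v.2.1, v.2.2.1, v.2.2.2, h⟩)
    intro v v' hvv
    simp only at hvv
    split_ifs at hvv with a1 a2 a2
    · simp only [Sum.inr.injEq, Subtype.mk.injEq] at hvv
      exact Subtype.ext hvv
    · simp only [Sum.inl.injEq, Subtype.mk.injEq] at hvv
      exact Subtype.ext hvv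
  have hlam := lam_ge_one hg1 hgH hHN
  have hlam3 : (1 : ℝ) ≤ ((g : ℝ) * (N : ℝ) / (H : ℝ)) ^ 3 := one_le_pow₀ hlam
  have hq : 0 ≤ (N : ℝ) ^ (2 + ε) * (D : ℝ) := by positivity
  have hcard' : (Nat.card {v : (ℕ × ℕ × ℤ) × (ℕ × ℕ × ℤ) // v.1 ∈ Cls N H g u S ∧
        v.2 ∈ Cls N H g u S ∧ Close2 K t v} : ℝ) ≤
      (Nat.card {v : (ℕ × ℕ × ℤ) × (ℕ × ℕ × ℤ) // v.1 ∈ Cls N H g u S ∧
        v.2 ∈ Cls N H g u S ∧ Close2 K t v ∧ v.1.2.1 ≠ v.2.2.1} : ℝ) +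
      (Nat.card {v : (ℕ × ℕ × ℤ) × (ℕ × ℕ × ℤ) // v.1 ∈ P2 N S ∧ v.2 ∈ P2 N S ∧
        Close2 K t v ∧ v.1.2.1 = v.2.2.1} : ℝ) := by exact_mod_cast hcard
  set L : ℝ := ((g : ℝ) * (N : ℝ) / (H : ℝ)) ^ 3 with hL
  set X : ℝ := (N : ℝ) ^ (2 + ε) * (D : ℝ) with hX
  have e1 : C1 * (N : ℝ) ^ (2 + ε) * (D : ℝ) * L = C1 * (X * L) := by
    rw [hX]; ring
  have e2 : C2 * (N : ℝ) ^ (2 + ε) * (D : ℝ) = C2 * X := by
    rw [hX]; ring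
  have e3 : (C1 + C2) * (N : ℝ) ^ (2 + ε) * (D : ℝ) * L = C1 * (X * L) + C2 * (X * L) := by
    rw [hX]; ring
  have e4 : X ≤ X * L := le_mul_of_one_le_right hq hlam3
  have e5 : C2 * X ≤ C2 * (X * L) := by gcongr
  rw [e1] at k1
  rw [e2] at k2
  rw [e3]
  linarith

theorem bcw (lsg : LsgStmt 4) (ecw : EcwStmt) : BcwStmt := by
  intro ε hε
  obtain ⟨C1, hC1, h1⟩ := lsg (ε / 2) (by positivity)
  obtain ⟨C2, hC2, h2⟩ := ecw (ε / 2) (by positivity)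
  refine ⟨C1 * C2 * 5 ^ 18, by positivity, fun N D K u H g t b S lo hi hlo hhi hP hg1 hgH hHN => ?_⟩
  have k2 := h2 N D K u H g t b S hP hg1 hgH hHN
  have hD : 10 < D := hP.2.2.1
  have hN1 : 1 ≤ N := by omega
  have hK1 : 1 ≤ K := by
    have h3 : D ≤ K ^ 2 := hP.2.2.2.2.2.2.1
    by_contra hcon
    have : K = 0 := by omega
    subst this
    simp at h3
    omega
  have hKN : K ≤ N := by
    have h3 : 4 * D * K ≤ N := hP.1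
    nlinarith
  have k1 := h1 (ℕ × ℕ × ℤ) (fun p => (Nat.pair p.1 p.2.1, p.2.2)) (by
    rintro ⟨a, b, c⟩ ⟨a', b', c'⟩ h
    simp only [Prod.mk.injEq] at h
    obtain ⟨h3, h4⟩ := h
    have h5 := Nat.pair_eq_pair.mp h3
    rw [h5.1, h5.2, h4]) K hK1 (Cls N H g u S) (fun p j => t * (co2 j p : ℝ)) lo hi
    (fun p _ => hlo p) (fun p _ => hhi p)
  have ht : VM.tri 4 = 10 := rfl
  rw [ht] at k1
  have e20 : (2 * ((10 : ℕ) : ℝ) + ε / 2) = 20 + ε / 2 := by norm_num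
  rw [e20] at k1
  have hE : Nat.card {v : (ℕ × ℕ × ℤ) × (ℕ × ℕ × ℤ) // v.1 ∈ Cls N H g u S ∧
      v.2 ∈ Cls N H g u S ∧ ∀ j : Fin 4, Nr (t * (co2 j v.1 : ℝ) - t * (co2 j v.2 : ℝ))
        (1 / (K : ℝ) ^ ((j : ℕ) + 1))} =
      Nat.card {v : (ℕ × ℕ × ℤ) × (ℕ × ℕ × ℤ) // v.1 ∈ Cls N H g u S ∧
        v.2 ∈ Cls N H g u S ∧ Close2 K t v} := rfl
  rw [hE] at k1
  set E : ℝ := (Nat.card {v : (ℕ × ℕ × ℤ) × (ℕ × ℕ × ℤ) // v.1 ∈ Cls N H g u S ∧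
        v.2 ∈ Cls N H g u S ∧ Close2 K t v} : ℝ) with hEdef
  have hE0 : 0 ≤ E := by positivity
  have hlam := lam_ge_one hg1 hgH hHN
  set lam : ℝ := (g : ℝ) * (N : ℝ) / (H : ℝ) with hlamdef
  have hNr : (1 : ℝ) ≤ N := by exact_mod_cast hN1
  have hH0 : (0 : ℝ) < H := by
    have : 0 < H := by omega
    exact_mod_cast this
  have hg0 : (0 : ℝ) < g := by exact_mod_cast hg1
  have hcard := card_cls N H g u S hg1 hN1
  have hcard2 : ((Cls N H g u S).card : ℝ) ≤ 5 * (N : ℝ) ^ 2 * (S.card : ℝ) / lam := by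
    refine hcard.trans (le_of_eq ?_)
    rw [hlamdef]
    field_simp
  have hK0 : (1 : ℝ) ≤ K := by exact_mod_cast hK1
  have hKNr : (K : ℝ) ≤ N := by exact_mod_cast hKN
  have hKp : (K : ℝ) ^ (20 + ε / 2) ≤ (K : ℝ) ^ 20 * (N : ℝ) ^ (ε / 2) := by
    rw [Real.rpow_add (by linarith)]
    have e1 : (K : ℝ) ^ (20 : ℝ) = (K : ℝ) ^ 20 := by
      rw [← Real.rpow_natCast]; norm_num
    rw [e1]
    gcongr
  have hlam0 : 0 < lam := by linarith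
  have hNe : (N : ℝ) ^ (ε / 2) * ((N : ℝ) ^ 36 * (N : ℝ) ^ (2 + ε / 2)) = (N : ℝ) ^ (38 + ε) := by
    rw [← Real.rpow_natCast, ← Real.rpow_add (by linarith), ← Real.rpow_add (by linarith)]
    congr 1
    push_cast
    ring
  have hlamp : lam ^ 3 / lam ^ 18 ≤ 1 := by
    rw [div_le_one (by positivity)]
    exact pow_le_pow_right₀ hlam (by norm_num)
  have hX0 : 0 ≤ (C1 * C2 * 5 ^ 18) * (K : ℝ) ^ 20 * (N : ℝ) ^ (38 + ε) * (S.card : ℝ) ^ 18 *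
      (D : ℝ) := by positivity
  calc (∑ p ∈ Cls N H g u S, ‖∑ m ∈ Finset.Icc (lo p) (hi p),
        ee (∑ j : Fin 4, t * (co2 j p : ℝ) * (m : ℝ) ^ ((j : ℕ) + 1))‖) ^ 20
      ≤ C1 * (K : ℝ) ^ (20 + ε / 2) * ((Cls N H g u S).card : ℝ) ^ 18 * E := k1
    _ ≤ C1 * ((K : ℝ) ^ 20 * (N : ℝ) ^ (ε / 2)) * (5 * (N : ℝ) ^ 2 * (S.card : ℝ) / lam) ^ 18 *
        (C2 * (N : ℝ) ^ (2 + ε / 2) * (D : ℝ) * lam ^ 3) := by
        gcongr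
    _ = (C1 * C2 * 5 ^ 18) * (K : ℝ) ^ 20 *
        ((N : ℝ) ^ (ε / 2) * ((N : ℝ) ^ 36 * (N : ℝ) ^ (2 + ε / 2))) * (S.card : ℝ) ^ 18 *
        (D : ℝ) * (lam ^ 3 / lam ^ 18) := by
        rw [div_pow]
        ring
    _ = (C1 * C2 * 5 ^ 18) * (K : ℝ) ^ 20 * (N : ℝ) ^ (38 + ε) * (S.card : ℝ) ^ 18 *
        (D : ℝ) * (lam ^ 3 / lam ^ 18) := by rw [hNe]
    _ ≤ (C1 * C2 * 5 ^ 18) * (K : ℝ) ^ 20 * (N : ℝ) ^ (38 + ε) * (S.card : ℝ) ^ 18 *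
        (D : ℝ) * 1 := by gcongr
    _ = _ := by ring

end Pool.Agent.VM5.H81
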